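import Pool.Agent.Helper35.WLK.Lift
import Pool.Agent.Helper82.TP.Sheet

/-! THEOREM R AT EVERY SCALE, for all pairs of points of one curve which agree in a literal variable and in finitely many
functions of the curve: truncation (zoom at the scale `0`) and Theorem R for the class. -/

set_option autoImplicit false
set_option linter.unusedSectionVars false

namespace Pool.Agent.Helper35.WLK

open Finset Filter Topology Pool.Agent.Helper69.RK Pool.Agent.Helper31.EC Pool.Agent.Helper31.EC.Sp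
open Pool.Agent.Helper31.EC.QS Pool.Agent.Helper13.AM Pool.Agent.Helper14.WLK
open Pool.Agent.Helper57.TA (sc wgt)

noncomputable section

variable {d N r : ℕ} {w : Fin N → ℝ} {z : Fin N} {ρ : ℝ} {C : ∀ S : Sp, CD S d N r → Prop}

/-- `bW`, `fW` refine the base line and the curve of type `i`, with no new information -/
structure Ref {S : Sp} (c : CD S d N r) (i : Fin r) {α : ℕ → Type} (bW : ∀ k, (S.F k).Ω → α k) {ν : Type} [Fintype ν]
    (fW : ν → QS S) : Prop where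
  bdd : Bdd bW
  fn : ∃ e : ∀ k, α k → c.al i k, ∀ k ω, c.bV i k ω = e k (bW k ω)
  io : io bW = c.b i
  cv : ∀ x, ∃ y, fW y = c.cv i x
  le : vd fW 1 ≤ c.xi i

/-- Theorem R at the scale `s` for all pairs of points which agree in `bW` and in `fW` -/
def TRw {S : Sp} (c : CD S d N r) (s : ℝ) (i : Fin r) {α : ℕ → Type} (bW : ∀ k, (S.F k).Ω → α k) {ν : Type}
    (fW : ν → QS S) : Prop :=
  ∀ (W : Sp) (P P' : Pj W S), Ag bW P P' → (∀ y, P.qs (fW y) = P'.qs (fW y)) →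
    P'.map (c.K s) ≤ P.map (c.b i ⊔ dg (c.q 0) 1 ⊔ c.K s) ⊔ P'.map (dg (c.q 0) 1)

theorem Ref.ag {S : Sp} {c : CD S d N r} {i : Fin r} {α : ℕ → Type} {bW : ∀ k, (S.F k).Ω → α k} {ν : Type} [Fintype ν]
    {fW : ν → QS S} (h : Ref c i bW fW) {W : Sp} {P P' : Pj W S} (hA : Ag bW P P') : Ag (c.bV i) P P' := by
  obtain ⟨e, he⟩ := h.fn
  exact hA.fn e he

theorem Ref.xi_eq {S : Sp} {c : CD S d N r} {i : Fin r} {α : ℕ → Type} {bW : ∀ k, (S.F k).Ω → α k} {ν : Type}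
    [Fintype ν] {fW : ν → QS S} (h : Ref c i bW fW) : Sp.io bW ⊔ vd fW 1 = c.xi i := by
  apply le_antisymm
  · rw [h.io]
    exact sup_le le_sup_left h.le
  · refine sup_le ?_ ?_
    · rw [h.io]
      exact le_sup_left
    · rw [vd_le]
      intro x
      obtain ⟨y, hy⟩ := h.cv x
      rw [← hy]
      exact (dg_le_vd fW 1 y).trans le_sup_right

theorem ref_self {S : Sp} {c : CD S d N r} (hl : c.Ln) (i : Fin r) : Ref c i (c.bV i) (c.cv i) where
  bdd := hl.bdd i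
  fn := ⟨fun _ x => x, fun _ _ => rfl⟩
  io := rfl
  cv := fun x => ⟨x, rfl⟩
  le := le_sup_right

/-- two refinements -/
theorem Ref.both {S : Sp} {c : CD S d N r} {i : Fin r} {α α' : ℕ → Type} {bW : ∀ k, (S.F k).Ω → α k}
    {bW' : ∀ k, (S.F k).Ω → α' k} {ν ν' : Type} [Fintype ν] [Fintype ν'] {fW : ν → QS S} {fW' : ν' → QS S}
    (h : Ref c i bW fW) (h' : Ref c i bW' fW') :
    Ref c i (fun k ω => (bW k ω, bW' k ω)) (Sum.elim fW fW') where
  bdd := h.bdd.pair h'.bdd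
  fn := by
    obtain ⟨e, he⟩ := h.fn
    exact ⟨fun k x => e k x.1, fun k ω => he k ω⟩
  io := by
    rw [io_pair h.bdd h'.bdd, h.io, h'.io, sup_idem]
  cv := fun x => by
    obtain ⟨y, hy⟩ := h.cv x
    exact ⟨Sum.inl y, hy⟩
  le := by
    rw [vd_le]
    rintro (y | y)
    · exact (dg_le_vd fW 1 y).trans h.le
    · exact (dg_le_vd fW' 1 y).trans h'.le

theorem TRw.mono {S : Sp} {c : CD S d N r} {s : ℝ} {i : Fin r} {α α' : ℕ → Type} {bW : ∀ k, (S.F k).Ω → α k}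
    {bW' : ∀ k, (S.F k).Ω → α' k} {ν ν' : Type} {fW : ν → QS S} {fW' : ν' → QS S} (h : TRw c s i bW fW)
    (e : ∀ k, α' k → α k) (he : ∀ k ω, bW k ω = e k (bW' k ω)) (hf : ∀ y, ∃ y', fW' y' = fW y) :
    TRw c s i bW' fW' := by
  intro W P P' hA hF
  refine h W P P' (hA.fn e he) fun y => ?_
  obtain ⟨y', hy⟩ := hf y
  rw [← hy]
  exact hF y'

/-- THEOREM R AT THE SCALE `s` -/
theorem exists_TRw (hC : Cls d N r w z ρ C) (hT : TRs w z C) {S : Sp} {c : CD S d N r} (hc : C S c) (i : Fin r)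
    {s : ℝ} (h0 : 0 ≤ s) (hs1 : w z * s ≤ 1) :
    ∃ (α : ℕ → Type) (bW : ∀ k, (S.F k).Ω → α k) (ν : Type) (_ : Fintype ν) (fW : ν → QS S),
      Ref c i bW fW ∧ TRw c s i bW fW := by
  have hax := hC.ax S c hc
  rcases h0.eq_or_lt with h | hpos
  · refine ⟨c.al i, c.bV i, _, inferInstance, c.cv i, ref_self hax.ln i, fun W P P' _ _ => ?_⟩
    rw [← h, hax.bx.K_zero, P'.map_bot]
    exact bot_le
  have hwz : 0 < w z := zero_lt_one.trans (hax.w1 z)
  obtain ⟨e, he'⟩ : ∃ e : ℝ, e = w z * s := ⟨_, rfl⟩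
  have he : 0 < e := he' ▸ mul_pos hwz hpos
  have h1 : e ≤ 1 := he' ▸ hs1
  obtain ⟨Z, hZdef⟩ : ∃ Z : ∀ k, Setoid (S.F k).Ω, ∀ k, Z k = Setoid.ker (c.VK 0 k) := ⟨_, fun _ => rfl⟩
  obtain ⟨c', hZR, hc'⟩ := hC.zoom S c hc 0 e he h1 le_rfl (by rw [mul_zero, zero_add]; exact h1) Z hZdef
  have hax' := hC.ax _ c' hc'
  have hZ : Triv Z := by
    intro k ω ω' a b g
    rw [hZdef]
    exact hax.bx.zero k ω ω' a b g
  -- the literal variable
  have hb1 : Bdd (S := S) (c'.bV i) := (bdd_triv e he hZ).mp (hax'.ln.bdd i)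
  have hb2 : io (S := S) (c'.bV i) ≤ c.b i := by
    rw [← chgL_triv_le e he hZ, chgL_io Z e he hb1]
    exact hZR.b i
  -- the functions
  have hg : ∀ x, ∃ g : QS S, cQ Z e he h1 g = c'.cv i x ∧ dg g 1 ≤ c.xi i := by
    intro x
    obtain ⟨g, hg⟩ := cQ_surj Z e he h1 (c'.cv i x)
    obtain ⟨g', hg1, hg2⟩ := Pool.Agent.Helper82.TP.exists_round g he.le h1
    refine ⟨g', ?_, hg1.trans ?_⟩
    · rw [← hg, eq_comm, cQ_eq]
      exact hg2
    · rw [← chgL_triv_le e he hZ]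
      have h2 := cQ_dg Z e he h1 g (le_refl (1 : ℝ))
      rw [mul_one, hg] at h2
      rw [← h2]
      exact ((dg_le_vd (c'.cv i) 1 x).trans le_sup_right).trans (hZR.xi i)
  choose g hg1 hg2 using hg
  refine ⟨fun k => c.al i k × c'.al i k, fun k ω => (c.bV i k ω, c'.bV i k ω), _, inferInstance,
    Sum.elim (c.cv i) g, ⟨(hax.ln.bdd i).pair hb1, ⟨fun k x => x.1, fun k ω => rfl⟩, ?_,
      fun x => ⟨Sum.inl x, rfl⟩, ?_⟩, ?_⟩
  · rw [io_pair (hax.ln.bdd i) hb1]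
    exact sup_eq_left.mpr hb2
  · rw [vd_le]
    rintro (x | x)
    · exact (dg_le_vd (c.cv i) 1 x).trans le_sup_right
    · exact hg2 x
  intro W P P' hA hF
  have a1 : Ag (c.bV i) P P' := hA.fn (fun k x => x.1) fun k ω => rfl
  have a2 : ∀ k ω, (W.F k).μ ω ≠ 0 → c'.bV i k (P.π k ω) = c'.bV i k (P'.π k ω) := fun k ω hω =>
    congrArg Prod.snd (hA k ω hω)
  have t1 := hT _ c' hc' i (W.chg W.tr e he) (lft e he hZ P) (lft e he hZ P')
    (fun k ω hω => a2 k ω hω) (fun j => by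
      have h2 := hF (Sum.inr (finProdFinEquiv.symm j))
      have h3 : P.qs (g (finProdFinEquiv.symm j)) = P'.qs (g (finProdFinEquiv.symm j)) := h2
      show (lft e he hZ P).qs (c'.cv i (finProdFinEquiv.symm j)) = (lft e he hZ P').qs (c'.cv i (finProdFinEquiv.symm j))
      rw [← hg1, lft_qs, lft_qs, h3])
  -- the box
  have eK : c'.K (1 / w z) = chgL Z e he (c.K s) := by
    have q0 : (0 : ℝ) ≤ 1 / w z := by positivity
    have q1 : (0 : ℝ) + e * (1 / w z) = s := by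
      rw [he']
      field_simp
      ring
    have q2 := hZR.VK (1 / w z) q0 (by rw [q1]; exact hs1)
    rw [q1] at q2
    unfold CD.K
    rw [chgL_io Z e he (hax.bx.bdd s)]
    have b1 : Bdd (S := S.chg Z e he) (c.VK s) := (bdd_triv e he hZ).mpr (hax.bx.bdd s)
    apply le_antisymm
    · exact io_le_of_fun b1 (Eventually.of_forall fun k ω ω' a b g1 g2 => (q2 k ω ω' a b g1).mpr g2)
    · exact io_le_of_fun (hax'.bx.bdd _) (Eventually.of_forall fun k ω ω' a b g1 g2 => (q2 k ω ω' a b g1).mp g2)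
  -- the base point
  have eP : c'.P ≤ chgL Z e he c.P := by
    unfold CD.P
    rw [vd_le]
    intro j
    obtain ⟨X, hX1, hX2⟩ := hZR.q j
    have hs0 : dg X 1 = dg (c.q j) 1 := by
      have h3 := dg_scl X (le_refl (0 : ℝ)) (le_refl (1 : ℝ))
      rw [sub_zero, ← hX1, hax.bx.q00, sub_zero] at h3
      exact h3.symm
    rw [hX2, cQ_dg Z e he h1 X le_rfl, mul_one]
    apply chgL_mono
    refine (dg_mono X h1).trans ?_
    rw [hs0]
    exact dg_le_vd c.q 1 j
  have t2 : (lft e he hZ P').map (c'.K (1 / w z)) ≤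
      (lft e he hZ P).map (c'.P ⊔ c'.K (1 / w z) ⊔ c'.b i) ⊔ (lft e he hZ P').map c'.P := t1
  have t3 : (lft e he hZ P).map (c'.P ⊔ c'.K (1 / w z) ⊔ c'.b i) ≤
      (lft e he hZ P).map (chgL Z e he (c.P ⊔ c.K s ⊔ c.b i)) := by
    apply Pj.map_mono
    rw [chgL_sup, chgL_sup, eK]
    exact sup_le_sup (sup_le_sup eP le_rfl) (hZR.b i)
  have t4 : (lft e he hZ P').map c'.P ≤ (lft e he hZ P').map (chgL Z e he c.P) := Pj.map_mono _ eP
  have t5 : chgL W.tr e he (P'.map (c.K s)) ≤ chgL W.tr e he (P.map (c.P ⊔ c.K s ⊔ c.b i) ⊔ P'.map c.P) := by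
    rw [chgL_sup, ← lft_map e he hZ P', ← lft_map e he hZ P', ← lft_map e he hZ P, ← eK]
    exact t2.trans (sup_le_sup t3 t4)
  rw [chgL_tr_le] at t5
  refine t5.trans (sup_le ?_ ?_)
  · refine le_trans (Pj.map_mono _ ?_) le_sup_left
    refine sup_le (sup_le ((hax.ln.P_le i).trans le_sup_left) le_sup_right) (le_sup_left.trans le_sup_left)
  · refine (Pj.map_mono _ (hax.ln.P_le i)).trans ?_
    rw [Pj.map_sup]
    refine sup_le ?_ le_sup_right
    have e2 : P'.map (c.b i) = P.map (c.b i) := (a1.map_io (hax.ln.bdd i)).symm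
    rw [e2]
    exact (Pj.map_mono _ (le_sup_left.trans le_sup_left)).trans le_sup_left

/-- THEOREM R AT FINITELY MANY SCALES -/
theorem exists_TRws (hC : Cls d N r w z ρ C) (hT : TRs w z C) {S : Sp} {c : CD S d N r} (hc : C S c) (i : Fin r)
    {m : ℕ} (s : Fin m → ℝ) (h0 : ∀ a, 0 ≤ s a) (hs1 : ∀ a, w z * s a ≤ 1) :
    ∃ (α : ℕ → Type) (bW : ∀ k, (S.F k).Ω → α k) (ν : Type) (_ : Fintype ν) (fW : ν → QS S),
      Ref c i bW fW ∧ ∀ a, TRw c (s a) i bW fW := by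
  induction m with
  | zero => exact ⟨_, _, _, inferInstance, _, ref_self (hC.ax S c hc).ln i, fun a => a.elim0⟩
  | succ m ih =>
    obtain ⟨α, bW, ν, _, fW, h1, h2⟩ := ih (fun a => s a.castSucc) (fun a => h0 _) fun a => hs1 _
    obtain ⟨α', bW', ν', _, fW', h3, h4⟩ := exists_TRw hC hT hc i (h0 (Fin.last m)) (hs1 (Fin.last m))
    refine ⟨_, _, _, inferInstance, _, h1.both h3, fun a => ?_⟩
    induction a using Fin.lastCases with
    | last => exact h4.mono (fun k x => x.2) (fun k ω => rfl) fun y => ⟨Sum.inr y, rfl⟩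
    | cast a => exact (h2 a).mono (fun k x => x.1) (fun k ω => rfl) fun y => ⟨Sum.inl y, rfl⟩

end

end Pool.Agent.Helper35.WLK
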