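import Pool.Agent.Helper14.WLK.Cop
import Pool.Agent.Helper13.AM.Der

/-! Change of the depth over the trivial base, as a functor: projections, functions, bounded variables. -/

set_option autoImplicit false
set_option linter.unusedSectionVars false

namespace Pool.Agent.Helper35.WLK

open Finset Filter Topology Pool.Agent.Helper69.RK Pool.Agent.Helper31.EC Pool.Agent.Helper31.EC.Sp
open Pool.Agent.Helper31.EC.QS Pool.Agent.Helper13.AM Pool.Agent.Helper14.WLK

noncomputable section

variable {S : Sp}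

/-- the partition knows nothing new on the support (in every term of the sequence) -/
def Triv (Z : ∀ k, Setoid (S.F k).Ω) : Prop :=
  ∀ k ω ω', (S.F k).μ ω ≠ 0 → (S.F k).μ ω' ≠ 0 → (S.F k).Z ω ω' → Z k ω ω'

variable {Z : ∀ k, Setoid (S.F k).Ω} (e : ℝ) (he : 0 < e)

/-- a projection at the depth `e`, over the trivial bases -/
def lft (hZ : Triv Z) {W : Sp} (P : Pj W S) : Pj (W.chg W.tr e he) (S.chg Z e he) where
  π := P.π
  law := P.law
  hZ := fun k ω ω' a b => by
    constructor
    · intro g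
      have g2 : (W.F k).Z ω ω' := g.2
      have g3 := (P.hZ k ω ω' a b).mp g2
      exact ⟨hZ k _ _ (P.supp k ω a) (P.supp k ω' b) g3, g3⟩
    · intro g
      have g2 : (S.F k).Z (P.π k ω) (P.π k ω') := g.2
      exact ⟨trivial, (P.hZ k ω ω' a b).mpr g2⟩
  hn := fun k => by
    show e * (W.F k).n = e * (S.F k).n
    rw [P.hn k]

variable (hZ : Triv Z) {W : Sp} (P : Pj W S)

theorem lft_π (k : ℕ) (ω : (W.F k).Ω) : (lft e he hZ P).π k ω = P.π k ω := rfl

theorem lft_map (x : S.L) : (lft e he hZ P).map (chgL Z e he x) = chgL W.tr e he (P.map x) := by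
  induction x using cl_ind
  rfl

theorem lft_qs (h1 : e ≤ 1) (f : QS S) :
    (lft e he hZ P).qs (cQ Z e he h1 f) = cQ W.tr e he h1 (P.qs f) := by
  obtain ⟨f, rfl⟩ := QS.mk_surj f
  rfl

/-- comparison at the depth `e` over the trivial base -/
theorem chgL_tr_le {x y : W.L} : chgL W.tr e he x ≤ chgL W.tr e he y ↔ x ≤ y := by
  have h1 := chgL_le_inf e he (Inf.bot : W.Inf) x y
  rw [cl_bot, sup_bot_eq] at h1
  exact h1

include hZ in
theorem chgL_triv_le {x y : S.L} : chgL Z e he x ≤ chgL Z e he y ↔ x ≤ y := by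
  have h1 := lft_map e he hZ (Pj.id S) x
  have h2 := lft_map e he hZ (Pj.id S) y
  rw [← (lft e he hZ (Pj.id S)).map_le, h1, h2, chgL_tr_le, Pj.id_map, Pj.id_map]

include hZ in
/-- bounded variables at the depth `e` are bounded -/
theorem bdd_triv {α : ℕ → Type} {X : ∀ k, (S.F k).Ω → α k} : Bdd (S := S.chg Z e he) X ↔ Bdd (S := S) X := by
  constructor
  · rintro ⟨C, hC⟩
    refine ⟨C * e, ?_⟩
    filter_upwards [hC] with k hk ω hω
    have h1 := hk ω hω
    have h2 : ((S.chg Z e he).F k).n = e * (S.F k).n := rfl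
    rw [h2, ← mul_assoc] at h1
    refine le_trans ?_ h1
    have h3 : nv (S.F k) (Setoid.ker (X k)) ω ≤ nv ((S.chg Z e he).F k) (Setoid.ker (X k)) ω := by
      unfold nv
      refine nvf_le_of_rel (S.F k).μ (Quotient.mk (Setoid.ker (X k))) (Quotient.mk (S.F k).Z)
        (Quotient.mk ((S.chg Z e he).F k).Z) ω fun ω' h4 h5 => ?_
      have h6 : (S.F k).Z ω' ω := Quotient.exact h5
      exact Quotient.sound ⟨hZ k ω' ω h4 hω h6, h6⟩
    exact_mod_cast h3
  · intro h
    exact chg_VB Z e he h

end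

end Pool.Agent.Helper35.WLK
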